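import Pool.Agent.H95.Link

set_option autoImplicit false
open Pool.Agent.H95.LinkDefs

theorem Pool.Agent.Results.MP_0a1256_an.Cex.result :
    ∃ (B : Type) (_ : CStarAlgebra B) (_ : PartialOrder B) (_ : StarOrderedRing B)
      (F : Submodule ℂ B) (P : B → B), IsTernary F ∧ IsLinearMap ℂ P ∧ (∀ x, P x ∈ F) ∧
        (∀ x ∈ F, P x = x) ∧
        (∀ x y z, P (P x * (star y * P z)) = P x * (star (P y) * P z)) ∧ ¬ Extends F P :=
  Pool.Agent.H95.Link.main2
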